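import Pool.Agent.Lib.MP_6c3d62_pr.Mg.G062
import Pool.Agent.Lib.MP_6c3d62_pr.Mg.G069
import Pool.Agent.Lib.MP_6c3d62_pr.Mg.G066

/-! Local version of block (2), deterministic part: short rounds at a deep point, lower bounds. -/

open Finset

set_option linter.unusedSectionVars false

namespace Pool.Agent.Stirring.QL

open Pool.Agent.Stirring.QK

variable {d L : ℕ} [NeZero L] {Ω : Type*} [Fintype Ω]
variable {S : Slab (Fin d → ZMod L) Ω} {Q Λ D D₂ : Finset (Fin d → ZMod L)}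
variable {h δ lam ρ Kw Mm c2 : ℝ} {Jg t0 m₀ r : ℕ}

theorem nrm_zero' : nrm (0 : Fin d → ZMod L) = 0 := by
  unfold nrm
  simp

theorem nrm_self (x : Fin d → ZMod L) {ρ : ℝ} (hρ : 0 ≤ ρ) : (nrm (x - x) : ℝ) ≤ ρ := by
  rw [sub_self, nrm_zero']
  simpa using hρ

/-- The strands which end far from the complement of `D₂` meet a window. -/
theorem meetL {l : List Ω} (hl : Dec (CondsL S Q Λ D D₂ h δ lam ρ Kw Mm c2 Jg t0 m₀ r) l)
    (hD₂ : D₂ ⊆ D) (hρ : 0 ≤ ρ) {l₀ B l₃ : List Ω} (hlB : l = l₀ ++ B ++ l₃)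
    (hB : B.length = Jg) {z : Fin d → ZMod L} (hz : ∀ y, (nrm (y - z) : ℝ) ≤ ρ → y ∈ D₂) :
    ¬ Avoid S Q B z := by
  have hzD : z ∈ D := hD₂ (hz z (nrm_self z hρ))
  refine (hl l₀ [] B l₃ (by rw [hlB]; simp)).meet hB z hzD fun B1 B2 hB12 => hz _ ?_
  refine (hl (l₀ ++ B1) [] B2 l₃ (by rw [hlB, hB12]; simp [List.append_assoc])).disp ?_ z hzD
  rw [← hB, hB12, List.length_append]
  omega

/-- One short round, near the starting point. -/
theorem round_upL (hD : AllDis S Q) (hQ : Q.Nonempty) (hlam : 0 ≤ lam)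
    (hgq : ∀ a, ∀ q ∈ S.good a, q ∈ D) (hgD : ∀ a, ∀ q ∈ S.good a, ∀ y ∈ Q, q + y ∈ D)
    {M : ℝ} (hM : ∀ m : ℕ, Jg ≤ m → ∀ z w, hk d L ((m + 1) * h) z w ≤ M)
    {l : List Ω} (hl : Dec (CondsL S Q Λ D D₂ h δ lam ρ Kw Mm c2 Jg t0 m₀ r) l)
    {l₀ A B l₃ : List Ω} (hlA : l = l₀ ++ A ++ B ++ l₃) (hB : B.length = 2 * Jg)
    (hD₂ : D₂ ⊆ D) (hρ : 0 ≤ ρ)
    {x z : Fin d → ZMod L} (hx : x ∈ D) (hz2 : ∀ y, (nrm (y - z) : ℝ) ≤ ρ → y ∈ D₂) :
    fw S Q (A ++ B) (dl x) z ≤ 4 * M + (8 * δ + 32 * lam / Q.card) * mx (fw S Q A (dl x)) := by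
  obtain ⟨B1, B2, rfl, h1, h2⟩ : ∃ B1 B2 : List Ω, B = B1 ++ B2 ∧ B1.length = Jg ∧
      B2.length = Jg := ⟨B.take Jg, B.drop Jg, (List.take_append_drop _ _).symm, by
        rw [List.length_take]; omega, by rw [List.length_drop]; omega⟩
  have c1 := meetL hl hD₂ hρ (l₀ := l₀ ++ A ++ B1) (B := B2) (l₃ := l₃)
    (by rw [hlA]; simp [List.append_assoc]) h2 hz2
  obtain ⟨b1, b2, a, q, rfl, hz, hq, hzq⟩ := exists_last c1
  have hN : (0 : ℝ) < Q.card := by exact_mod_cast Finset.card_pos.mpr hQ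
  set U := mx (fw S Q A (dl x)) with hU
  have hU0 : 0 ≤ U := mx_nonneg (fw_nonneg hD A (dl_nonneg x))
  have e1 : A ++ (B1 ++ (b1 ++ a :: b2)) = (A ++ B1 ++ b1) ++ a :: b2 := by
    simp [List.append_assoc]
  rw [e1, fw_last hD hz hq hzq]
  have c2 := (hl l₀ (A ++ B1 ++ b1) [a] (b2 ++ l₃) (by
    rw [hlA]; simp [List.append_assoc])).mass_up a rfl x hx q (hgq a q hq)
  have c3 := (hl l₀ A (B1 ++ b1) (a :: b2 ++ l₃) (by
    rw [hlA]; simp [List.append_assoc])).tele_up x hx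
  have c4 : mx (fw S Q (A ++ B1 ++ b1) (dl x)) ≤ U := by
    rw [List.append_assoc]; exact mx_anti hD A _ _
  have c5 : ∀ w ∈ D, ∑ z, fw S Q (A ++ B1 ++ b1) (dl x) z * hk d L h z w ≤
      2 * M + 4 * δ * U := by
    intro w hw
    have c6 := c3 w hw
    rw [← List.append_assoc] at c6
    refine c6.trans ?_
    have c7 := sum_mul_le (fw_nonneg hD A (dl_nonneg x)) (fw_dl_sum A x)
      (fun z => hM (B1 ++ b1).length (by simp; omega) z w)
    linarith
  have c6 : ∑ y ∈ Q, ∑ z, fw S Q (A ++ B1 ++ b1) (dl x) z * hk d L h z (q + y) ≤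
      Q.card * (2 * M + 4 * δ * U) := by
    calc _ ≤ ∑ _y ∈ Q, (2 * M + 4 * δ * U) :=
          Finset.sum_le_sum fun y hy => c5 _ (hgD a q hq y hy)
      _ = _ := by rw [Finset.sum_const, nsmul_eq_mul]
  rw [div_le_iff₀ hN]
  have c7 : 32 * lam * mx (fw S Q (A ++ B1 ++ b1) (dl x)) ≤ 32 * lam * U :=
    mul_le_mul_of_nonneg_left c4 (by positivity)
  have c8 : (4 * M + (8 * δ + 32 * lam / Q.card) * U) * Q.card =
      2 * (Q.card * (2 * M + 4 * δ * U)) + 32 * lam * U := by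
    field_simp
    ring
  rw [c8]
  linarith

/-- Many short rounds. -/
theorem rounds_upL (hD : AllDis S Q) (hQ : Q.Nonempty) (hδ : 0 ≤ δ) (hlam : 0 ≤ lam)
    (hgq : ∀ a, ∀ q ∈ S.good a, q ∈ D) (hgD : ∀ a, ∀ q ∈ S.good a, ∀ y ∈ Q, q + y ∈ D)
    (hD₂ : D₂ ⊆ D) (hρ : 0 ≤ ρ)
    {M : ℝ} (hM0 : 0 ≤ M) (hM : ∀ m : ℕ, Jg ≤ m → ∀ z w, hk d L ((m + 1) * h) z w ≤ M)
    (he : 8 * δ + 32 * lam / Q.card ≤ 1 / 2)
    {l : List Ω} (hl : Dec (CondsL S Q Λ D D₂ h δ lam ρ Kw Mm c2 Jg t0 m₀ r) l)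
    {x : Fin d → ZMod L} (hx : ∀ y, (nrm (y - x) : ℝ) ≤ 2 * ρ → y ∈ D₂) (R : ℕ)
    (hR : R * (2 * Jg) ≤ t0)
    {l₀ B l₃ : List Ω} (hlA : l = l₀ ++ B ++ l₃) (hB : B.length = R * (2 * Jg))
    (z : Fin d → ZMod L) :
    fw S Q B (dl x) z ≤
      8 * M + (8 * δ + 32 * lam / Q.card) ^ R + 2 * Real.exp (-lam) := by
  have hxD : x ∈ D := hD₂ (hx x (nrm_self x (by linarith)))
  set e := 8 * δ + 32 * lam / Q.card with hedef
  have he0 : 0 ≤ e := by positivity
  have hε : 0 < Real.exp (-lam) := Real.exp_pos _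
  induction R generalizing B l₃ z with
  | zero =>
    have : B = [] := by
      rw [← List.length_eq_zero_iff]; simpa using hB
    subst this
    rw [pow_zero]
    have := dl_le_one x z
    show dl x z ≤ _
    linarith
  | succ R ih =>
    have hm : (R + 1) * (2 * Jg) = R * (2 * Jg) + 2 * Jg := by ring
    by_cases hz : ρ ≤ (nrm (z - x) : ℝ)
    · -- far
      have c0 := (hl l₀ [] B l₃ (by rw [hlA]; simp)).loc (by rw [hB]; exact hR) x hxD
      have c1 : fw S Q B (dl x) z ≤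
          ∑ z, (if ρ ≤ (nrm (z - x) : ℝ) then fw S Q B (dl x) z else 0) := by
        refine le_trans (le_of_eq ?_) (Finset.single_le_sum
          (f := fun z => if ρ ≤ (nrm (z - x) : ℝ) then fw S Q B (dl x) z else 0)
          (fun y _ => ?_) (Finset.mem_univ z))
        · simp only [hz, if_true]
        · split_ifs
          · exact fw_nonneg hD B (dl_nonneg x) y
          · exact le_rfl
      have : 0 ≤ e ^ (R + 1) := by positivity
      linarith
    · push Not at hz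
      rw [hm] at hB
      obtain ⟨B1, B2, rfl, h1, h2⟩ : ∃ B1 B2 : List Ω, B = B1 ++ B2 ∧
          B1.length = R * (2 * Jg) ∧ B2.length = 2 * Jg := by
        generalize R * (2 * Jg) = K at hB ⊢
        exact ⟨B.take K, B.drop K, (List.take_append_drop _ _).symm, by
            rw [List.length_take]; omega, by rw [List.length_drop]; omega⟩
      have c1 := round_upL (l₀ := l₀) (A := B1) (B := B2) (l₃ := l₃) hD hQ hlam hgq hgD hM hl
        (by rw [hlA]; simp [List.append_assoc]) h2 hD₂ hρ hxD (fun y hy => hx y (by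
          have e1 : y - x = (y - z) + (z - x) := by abel
          rw [e1]
          have n1 : (nrm ((y - z) + (z - x)) : ℝ) ≤ nrm (y - z) + nrm (z - x) := by
            exact_mod_cast nrm_add _ _
          linarith))
      refine c1.trans ?_
      have c2 : mx (fw S Q B1 (dl x)) ≤ 8 * M + e ^ R + 2 * Real.exp (-lam) :=
        mx_le fun z => ih (by rw [hm] at hR; omega) (l₃ := B2 ++ l₃)
          (by rw [hlA]; simp [List.append_assoc]) h1 z
      have c3 := mul_le_mul_of_nonneg_left c2 he0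
      have c4 : e * (8 * M) ≤ 1 / 2 * (8 * M) := mul_le_mul_of_nonneg_right he (by positivity)
      have c5 : e * (2 * Real.exp (-lam)) ≤ 1 / 2 * (2 * Real.exp (-lam)) :=
        mul_le_mul_of_nonneg_right he (by positivity)
      rw [pow_succ]
      nlinarith

/-- The mass near the start, after the localisation time. -/
theorem near_mass (hD : AllDis S Q) {B0 : List Ω} {x : Fin d → ZMod L}
    (h1 : ∑ z, (if ρ ≤ (nrm (z - x) : ℝ) then fw S Q B0 (dl x) z else 0) ≤ Real.exp (-lam))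
    (hlam : 1 ≤ lam) :
    1 / 2 ≤ ∑ y, (if ρ ≤ (nrm (y - x) : ℝ) then 0 else fw S Q B0 (dl x) y) := by
  have h3 : ∑ y, (if ρ ≤ (nrm (y - x) : ℝ) then fw S Q B0 (dl x) y else 0) +
      ∑ y, (if ρ ≤ (nrm (y - x) : ℝ) then 0 else fw S Q B0 (dl x) y) = 1 := by
    rw [← Finset.sum_add_distrib, ← fw_dl_sum (S := S) (Q := Q) B0 x]
    refine Finset.sum_congr rfl fun y _ => ?_
    split_ifs <;> simp
  have h4 : Real.exp (-lam) ≤ Real.exp (-1) := Real.exp_le_exp.mpr (by linarith)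
  have h5 : Real.exp (-1) ≤ 1 / 2 := by
    rw [Real.exp_neg, inv_eq_one_div]
    have h6 : (2 : ℝ) ≤ Real.exp 1 := by
      have := Real.add_one_le_exp (1 : ℝ)
      linarith
    exact one_div_le_one_div_of_le (by norm_num) h6
  linarith

/-- The mass seen by the heat kernel from the near points. -/
theorem near_low (hD : AllDis S Q) {B0 : List Ω} {x w : Fin d → ZMod L} {κ s : ℝ} (hκ : 0 ≤ κ)
    (h1 : 1 / 2 ≤ ∑ y, (if ρ ≤ (nrm (y - x) : ℝ) then 0 else fw S Q B0 (dl x) y))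
    (hk0 : ∀ z, 0 ≤ hk d L s z w)
    (hlow : ∀ z, (nrm (z - x) : ℝ) < ρ → κ ≤ hk d L s z w) :
    κ / 2 ≤ ∑ z', fw S Q B0 (dl x) z' * hk d L s z' w := by
  have h3 : κ * ∑ y, (if ρ ≤ (nrm (y - x) : ℝ) then 0 else fw S Q B0 (dl x) y) ≤
      ∑ z', fw S Q B0 (dl x) z' * hk d L s z' w := by
    rw [Finset.mul_sum]
    refine Finset.sum_le_sum fun z' _ => ?_
    split_ifs with h4
    · rw [mul_zero]
      exact mul_nonneg (fw_nonneg hD B0 (dl_nonneg x) z') (hk0 _)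
    · rw [mul_comm]
      push Not at h4
      exact mul_le_mul_of_nonneg_left (hlow z' h4) (fw_nonneg hD B0 (dl_nonneg x) z')
  have h5 := mul_le_mul_of_nonneg_left h1 hκ
  linarith

section Par

variable {b J R : ℕ} {c α p p' c1 : ℝ}

theorem rho_nonneg (P : ParL d L b J Jg R m₀ r c h δ lam ρ α p p' Mm c1 c2) : 0 ≤ ρ :=
  (Nat.cast_nonneg b).trans P.l3

/-- The lower bound of the heat kernel used everywhere. -/
noncomputable def kap (d J : ℕ) (c h : ℝ) : ℝ := c * (1 / Real.sqrt ((J + 1) * h)) ^ d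

theorem kap_nonneg {c h : ℝ} (hc : 0 < c) (J : ℕ) : 0 ≤ kap d J c h := by
  unfold kap; positivity

theorem kap_le (P : ParL d L b J Jg R m₀ r c h δ lam ρ α p p' Mm c1 c2) (hc : 0 < c)
    (hkge : ∀ s : ℝ, 1 ≤ s → ∀ x y : Fin d → ZMod L, (nrm (y - x) : ℝ) ≤ c * Real.sqrt s →
      c * (1 / Real.sqrt s) ^ d ≤ hk d L s x y) {m : ℕ} (hm : m₀ ≤ m) (hm' : m ≤ J)
    {z w : Fin d → ZMod L} (hzw : (nrm (w - z) : ℝ) ≤ r + 4 * ρ) :
    kap d J c h ≤ hk d L ((m + 1) * h) z w := by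
  have hh : 0 < h := lt_of_lt_of_le one_pos P.hh
  have hh1 := P.hh
  have hmJ : (m : ℝ) ≤ J := by exact_mod_cast hm'
  have hm0 : (m₀ : ℝ) ≤ m := by exact_mod_cast hm
  have hs1 : 1 ≤ ((m : ℝ) + 1) * h := by
    have : 0 ≤ (m : ℝ) * h := by positivity
    nlinarith
  have h2 := hkge (((m : ℝ) + 1) * h) hs1 z w (by
    refine hzw.trans (P.l4.trans ?_)
    refine mul_le_mul_of_nonneg_left (Real.sqrt_le_sqrt ?_) hc.le
    exact mul_le_mul_of_nonneg_right (by linarith) hh.le)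
  refine le_trans ?_ h2
  unfold kap
  have h3 : 0 < Real.sqrt (((m : ℝ) + 1) * h) := Real.sqrt_pos.mpr (by linarith)
  have h4 : Real.sqrt (((m : ℝ) + 1) * h) ≤ Real.sqrt ((J + 1) * h) :=
    Real.sqrt_le_sqrt (mul_le_mul_of_nonneg_right (by linarith) hh.le)
  gcongr

variable (P : ParL d L b J Jg R m₀ r c h δ lam ρ α p p' Mm c1 c2) (hc : 0 < c)
  (hkge : ∀ s : ℝ, 1 ≤ s → ∀ x y : Fin d → ZMod L, (nrm (y - x) : ℝ) ≤ c * Real.sqrt s →
      c * (1 / Real.sqrt s) ^ d ≤ hk d L s x y) (hD : AllDis S (box d L b))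
  (hgq : ∀ a, ∀ q ∈ S.good a, q ∈ D) (hgD : ∀ a, ∀ q ∈ S.good a, ∀ y ∈ box d L b, q + y ∈ D)
  (hD₂ : D₂ ⊆ D) {l : List Ω} (hlJ : l.length = J)
  (hl : Dec (CondsL S (box d L b) Λ D D₂ h δ lam ρ Kw Mm c2 Jg (R * (2 * Jg)) m₀ r) l)

include P hD hgq hgD hD₂ hl in
/-- The sup norm after the localisation time. -/
theorem supL {l₀ B0 l₃ : List Ω} (hlB : l = l₀ ++ B0 ++ l₃) (h0 : B0.length = R * (2 * Jg))
    {x : Fin d → ZMod L} (hx : ∀ y, (nrm (y - x) : ℝ) ≤ 2 * ρ → y ∈ D₂) (z : Fin d → ZMod L) :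
    fw S (box d L b) B0 (dl x) z ≤ 8 * (1 / Real.sqrt (Jg * h) + 1 / (L : ℝ)) ^ d +
      (8 * δ + 32 * lam / (b : ℝ) ^ d) ^ R + 2 * Real.exp (-lam) := by
  have hh : 0 < h := lt_of_lt_of_le one_pos P.hh
  have hQ : (box d L b).Nonempty := box_nonempty P.hb
  have hJg : (1 : ℝ) ≤ Jg := by exact_mod_cast P.hJg
  have hcard : ((box d L b).card : ℝ) = (b : ℝ) ^ d := by
    rw [card_box P.hbL]; push_cast; rfl
  have h3 := rounds_upL (B := B0) hD hQ P.hδ.le (zero_le_one.trans P.hlam) hgq hgD hD₂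
    (rho_nonneg P) (M := (1 / Real.sqrt (Jg * h) + 1 / (L : ℝ)) ^ d) (by positivity)
    (fun m hm z w => by
      refine hk_le_of_le P.hL (by positivity) ?_ z w
      have : (Jg : ℝ) ≤ m := by exact_mod_cast hm
      nlinarith)
    (by rw [hcard]; exact P.l2) hl hx R le_rfl (l₀ := l₀) (l₃ := l₃) hlB h0 z
  rw [hcard] at h3
  exact h3

include P hc hkge hD hgq hgD hD₂ hlJ hl in
/-- The core: mass at the sites of a window `q` of the slab `a`, from a deep point. -/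
theorem window_low {l₀ B0 B1 l₃ : List Ω} {a : Ω} (hlB : l = l₀ ++ B0 ++ B1 ++ a :: l₃)
    (h0 : B0.length = R * (2 * Jg)) (h1 : m₀ ≤ B1.length)
    {x q : Fin d → ZMod L} (hx : ∀ y, (nrm (y - x) : ℝ) ≤ 2 * ρ → y ∈ D₂) (hq : q ∈ S.good a)
    (hqx : ∀ y ∈ box d L b, (nrm (q + y - x) : ℝ) ≤ r + 3 * ρ) :
    kap d J c h / 16 ≤ (∑ y ∈ box d L b,
      fw S (box d L b) (B0 ++ B1) (dl x) (S.T a (q + y))) / (box d L b).card := by
  set Q := box d L b with hQdef
  have hQ : Q.Nonempty := box_nonempty P.hb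
  have hρ := rho_nonneg P
  have hδ := P.hδ
  have hlam1 := P.hlam
  have hh : 0 < h := lt_of_lt_of_le one_pos P.hh
  have hxD : x ∈ D := hD₂ (hx x (nrm_self x (by linarith)))
  have hN : (0 : ℝ) < Q.card := by exact_mod_cast Finset.card_pos.mpr hQ
  have hcard : (Q.card : ℝ) = (b : ℝ) ^ d := by
    rw [hQdef, card_box P.hbL]; push_cast; rfl
  set U := 8 * (1 / Real.sqrt (Jg * h) + 1 / (L : ℝ)) ^ d +
      (8 * δ + 32 * lam / (b : ℝ) ^ d) ^ R + 2 * Real.exp (-lam) with hU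
  have hUz := supL P hD hgq hgD hD₂ hl (l₀ := l₀) (B0 := B0) (l₃ := B1 ++ a :: l₃)
    (by rw [hlB]; simp [List.append_assoc]) h0 hx
  have hU0 : 0 ≤ U := (fw_nonneg hD B0 (dl_nonneg x) 0).trans (hUz 0)
  set κ := kap d J c h with hκ
  have hκ0 : 0 ≤ κ := kap_nonneg hc J
  have c2' := (hl l₀ (B0 ++ B1) [a] l₃ (by
    rw [hlB]; simp [List.append_assoc])).mass_lo a rfl x hxD q (hgq a q hq)
  have c3 := (hl l₀ B0 B1 (a :: l₃) hlB).tele_lo x hxD
  have c4 : mx (fw S Q (B0 ++ B1) (dl x)) ≤ U := (mx_anti hD B0 _ _).trans (mx_le hUz)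
  have c4' : mx (fw S Q B0 (dl x)) ≤ U := mx_le hUz
  have c6 := (hl l₀ [] B0 (B1 ++ a :: l₃) (by
    rw [hlB]; simp [List.append_assoc])).loc h0.le x hxD
  have c8 := near_mass hD c6 hlam1
  have hBJ : B1.length ≤ J := by
    rw [← hlJ, hlB]
    simp only [List.length_append]
    omega
  have c9 : ∀ y ∈ Q, κ / 2 ≤ ∑ z', fw S Q B0 (dl x) z' *
      hk d L ((B1.length + 1) * h) z' (q + y) := by
    intro y hy
    refine near_low hD hκ0 c8 (fun z => hk_nonneg (by positivity) _ _) fun z' hz' => ?_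
    refine kap_le P hc hkge h1 hBJ ?_
    have e2 : q + y - z' = (q + y - x) + (x - z') := by abel
    rw [e2]
    have n1 := nrm_add (q + y - x) (x - z')
    rw [nrm_sub_comm x z'] at n1
    have n2 : (nrm ((q + y - x) + (x - z')) : ℝ) ≤ nrm (q + y - x) + nrm (z' - x) := by
      exact_mod_cast n1
    have n3 := hqx y hy
    linarith
  have c10 : Q.card * ((κ / 2 - 2 * δ * U) / 2) ≤
      ∑ y ∈ Q, ∑ z, fw S Q (B0 ++ B1) (dl x) z * hk d L h z (q + y) := by
    have h3 : ∑ _y ∈ Q, (κ / 2 - 2 * δ * U) / 2 = Q.card * ((κ / 2 - 2 * δ * U) / 2) := by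
      rw [Finset.sum_const, nsmul_eq_mul]
    rw [← h3]
    refine Finset.sum_le_sum fun y hy => ?_
    have h4 := c3 (q + y) (hgD a q hq y hy)
    have h5 := c9 y hy
    have h6 : 2 * δ * mx (fw S Q B0 (dl x)) ≤ 2 * δ * U :=
      mul_le_mul_of_nonneg_left c4' (by positivity)
    linarith
  have c11 : 16 * lam * mx (fw S Q (B0 ++ B1) (dl x)) ≤ 16 * lam * U :=
    mul_le_mul_of_nonneg_left c4 (by linarith)
  have c12 : κ / 8 - (δ / 2 + 8 * lam / Q.card) * U ≤ (∑ y ∈ Q,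
      fw S Q (B0 ++ B1) (dl x) (S.T a (q + y))) / Q.card := by
    rw [le_div_iff₀ hN]
    have c12 : (κ / 8 - (δ / 2 + 8 * lam / Q.card) * U) * Q.card =
        (Q.card * ((κ / 2 - 2 * δ * U) / 2) - 16 * lam * U) / 2 := by
      field_simp
      ring
    rw [c12]
    linarith
  refine le_trans ?_ c12
  rw [hcard]
  have h6 := P.l6
  rw [← hU] at h6
  have h7 : c * (1 / Real.sqrt ((J + 1) * h)) ^ d = κ := rfl
  rw [h7] at h6
  linarith

include P hc hkge hD hgq hgD hD₂ hlJ hl in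
/-- **low_b**: from a deep point to a site of a good window of the last slab. -/
theorem low_b {l₀ B l₃ : List Ω} {a : Ω} (hlB : l = l₀ ++ (B ++ [a]) ++ l₃)
    (hB : R * (2 * Jg) + m₀ ≤ B.length) {x v : Fin d → ZMod L}
    (hx : ∀ y, (nrm (y - x) : ℝ) ≤ 2 * ρ → y ∈ D₂) (hv : InWin (box d L b) (S.good a) v)
    (hxv : (nrm (v - x) : ℝ) ≤ r) :
    kap d J c h / 16 ≤ fw S (box d L b) (B ++ [a]) (dl x) v := by
  obtain ⟨q, hq, hvq⟩ := hv
  obtain ⟨B0, B1, rfl, h0, h1⟩ : ∃ B0 B1 : List Ω, B = B0 ++ B1 ∧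
      B0.length = R * (2 * Jg) ∧ m₀ ≤ B1.length := by
    generalize R * (2 * Jg) = K at hB ⊢
    exact ⟨B.take K, B.drop K, (List.take_append_drop _ _).symm, by
        rw [List.length_take]; omega, by rw [List.length_drop]; omega⟩
  rw [fw_snoc]
  show _ ≤ avg (box d L b) (S.good a) _ v
  rw [avg_in (hD a) _ hq hvq]
  refine window_low P hc hkge hD hgq hgD hD₂ hlJ hl (l₀ := l₀) (l₃ := l₃)
    (by rw [hlB]; simp [List.append_assoc]) h0 h1 hx hq fun y hy => ?_
  have e1 : q + y - x = (y - (v - q)) + (v - x) := by abel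
  rw [e1]
  have n1 := nrm_add (y - (v - q)) (v - x)
  have n2 := nrm_box hy hvq
  have n3 : (nrm ((y - (v - q)) + (v - x)) : ℝ) ≤ b + nrm (v - x) := by
    exact_mod_cast n1.trans (add_le_add n2 le_rfl)
  have := P.l3
  linarith [rho_nonneg P]

include P hc hkge hD hgq hgD hD₂ hlJ hl in
/-- **low_h**: from a deep point to a deep point. -/
theorem low_h {l₀ B l₃ : List Ω} (hlB : l = l₀ ++ B ++ l₃)
    (hB : R * (2 * Jg) + m₀ + Jg ≤ B.length) {x z : Fin d → ZMod L}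
    (hx : ∀ y, (nrm (y - x) : ℝ) ≤ 2 * ρ → y ∈ D₂)
    (hz : ∀ y, (nrm (y - z) : ℝ) ≤ ρ → y ∈ D₂)
    (hxz : (nrm (z - x) : ℝ) ≤ r) :
    kap d J c h / 16 ≤ fw S (box d L b) B (dl x) z := by
  obtain ⟨B0, B1, B2, rfl, h0, h1, h2⟩ : ∃ B0 B1 B2 : List Ω, B = B0 ++ B1 ++ B2 ∧
      B0.length = R * (2 * Jg) ∧ m₀ ≤ B1.length ∧ B2.length = Jg := by
    generalize R * (2 * Jg) = K at hB ⊢
    refine ⟨B.take K, (B.drop K).take (B.length - K - Jg),
      (B.drop K).drop (B.length - K - Jg), ?_, ?_, ?_, ?_⟩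
    · rw [List.append_assoc, List.take_append_drop, List.take_append_drop]
    · rw [List.length_take]; omega
    · rw [List.length_take, List.length_drop]; omega
    · rw [List.length_drop, List.length_drop]; omega
  have hρ := rho_nonneg P
  have hzD : z ∈ D := hD₂ (hz z (nrm_self z hρ))
  have c1 := meetL hl hD₂ hρ (l₀ := l₀ ++ B0 ++ B1) (B := B2) (l₃ := l₃)
    (by rw [hlB]; simp [List.append_assoc]) h2 hz
  obtain ⟨b1, b2, a, q, rfl, hz', hq, hzq⟩ := exists_last c1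
  have e1 : B0 ++ B1 ++ (b1 ++ a :: b2) = (B0 ++ (B1 ++ b1)) ++ a :: b2 := by
    simp [List.append_assoc]
  rw [e1, fw_last hD hz' hq hzq]
  refine window_low P hc hkge hD hgq hgD hD₂ hlJ hl (l₀ := l₀) (B0 := B0) (B1 := B1 ++ b1)
    (l₃ := b2 ++ l₃) (by rw [hlB]; simp [List.append_assoc]) h0
    (by rw [List.length_append]; omega) hx hq fun y hy => ?_
  have c7 := (hl (l₀ ++ B0 ++ B1 ++ b1 ++ [a]) [] b2 l₃ (by
    rw [hlB]; simp [List.append_assoc])).disp (by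
      simp only [List.length_append, List.length_cons] at h2; omega) z hzD
  have e2 : q + y - x = (y - (trc S b2 z - q)) + ((trc S b2 z - z) + (z - x)) := by abel
  rw [e2]
  have n1 := nrm_add (y - (trc S b2 z - q)) ((trc S b2 z - z) + (z - x))
  have n2 := nrm_add (trc S b2 z - z) (z - x)
  have n4 := nrm_box hy hzq
  have n5 : (nrm ((y - (trc S b2 z - q)) + ((trc S b2 z - z) + (z - x))) : ℝ) ≤
      b + (nrm (trc S b2 z - z) + nrm (z - x)) := by
    exact_mod_cast n1.trans (add_le_add n4 n2)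
  have := P.l3
  linarith [rho_nonneg P]

theorem bump_le {ρ : ℝ} (hρ : 0 < ρ) (z z' : Fin d → ZMod L) :
    bump ρ z z' ≤ if (nrm (z' - z) : ℝ) ≤ ρ then 1 else 0 := by
  unfold bump
  split_ifs with h1
  · refine max_le zero_le_one ?_
    have : 0 ≤ (nrm (z' - z) : ℝ) / ρ := by positivity
    linarith
  · push Not at h1
    refine max_le le_rfl ?_
    have : 1 ≤ (nrm (z' - z) : ℝ) / ρ := by
      rw [le_div_iff₀ hρ]
      linarith
    linarith

include P hc hkge hD hgq hgD hD₂ hlJ hl in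
/-- **low_f**: from a window of `D` to a deep point. -/
theorem low_f {l₀ B l₃ : List Ω} (hlB : l = l₀ ++ B ++ l₃) (hB : J ≤ 2 * B.length)
    {q z : Fin d → ZMod L} (hq : q ∈ D)
    (hz : ∀ y, (nrm (y - z) : ℝ) ≤ 4 * ρ → y ∈ D₂) (hqz : (nrm (z - q) : ℝ) ≤ r + ρ) :
    c2 * (kap d J c h / 16) ≤ fw S (box d L b) B (cu (box d L b) q) z := by
  have hρ0 : 0 < ρ := by
    have h1 := P.l3
    have h2 : (1 : ℝ) ≤ b := by exact_mod_cast P.hb
    linarith
  have hρ := hρ0.le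
  have hκ0 : 0 ≤ kap d J c h / 16 := by
    have := kap_nonneg (d := d) (h := h) hc J
    linarith
  have h5 := P.l5
  have hJg := P.hJg
  obtain ⟨B1, B2, rfl, h1, h2⟩ : ∃ B1 B2 : List Ω, B = B1 ++ B2 ∧
      m₀ + 1 ≤ B1.length ∧ B2.length = R * (2 * Jg) + m₀ + Jg := by
    generalize R * (2 * Jg) = K at h5 ⊢
    exact ⟨B.take (B.length - (K + m₀ + Jg)), B.drop (B.length - (K + m₀ + Jg)),
      (List.take_append_drop _ _).symm, by
        rw [List.length_take]; omega, by rw [List.length_drop]; omega⟩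
  have hzD : z ∈ D := hD₂ (hz z (nrm_self z (by linarith)))
  have c1 := (hl l₀ [] B1 (B2 ++ l₃) (by rw [hlB]; simp [List.append_assoc])).hit h1 q hq z hzD
    hqz
  rw [fw_append, g7_fw_lin]
  calc c2 * (kap d J c h / 16) ≤
        (∑ z', fw S (box d L b) B1 (cu (box d L b) q) z' * bump ρ z z') *
          (kap d J c h / 16) := mul_le_mul_of_nonneg_right c1 hκ0
    _ = ∑ z', fw S (box d L b) B1 (cu (box d L b) q) z' *
          (bump ρ z z' * (kap d J c h / 16)) := by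
        rw [Finset.sum_mul]
        exact Finset.sum_congr rfl fun z' _ => by ring
    _ ≤ _ := by
        refine Finset.sum_le_sum fun z' _ => mul_le_mul_of_nonneg_left ?_
          (fw_nonneg hD B1 (cu_nonneg _ q) z')
        by_cases hn : (nrm (z' - z) : ℝ) ≤ ρ
        · have c2' : bump ρ z z' ≤ 1 := by
            have := bump_le hρ0 z z'
            rwa [if_pos hn] at this
          have c3 := low_h P hc hkge hD hgq hgD hD₂ hlJ hl (l₀ := l₀ ++ B1) (B := B2) (l₃ := l₃)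
            (by rw [hlB]; simp [List.append_assoc]) h2.ge (x := z') (z := z) (fun y hy => by
              refine hz y ?_
              have e1 : y - z = (y - z') + (z' - z) := by abel
              rw [e1]
              have n1 : (nrm ((y - z') + (z' - z)) : ℝ) ≤ nrm (y - z') + nrm (z' - z) := by
                exact_mod_cast nrm_add _ _
              linarith) (fun y hy => hz y (by linarith)) (by
              rw [nrm_sub_comm]
              have := P.l8
              linarith)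
          calc bump ρ z z' * (kap d J c h / 16) ≤ 1 * (kap d J c h / 16) :=
                mul_le_mul_of_nonneg_right c2' hκ0
            _ ≤ _ := by rw [one_mul]; exact c3
        · have c2' : bump ρ z z' ≤ 0 := by
            have := bump_le hρ0 z z'
            rwa [if_neg hn] at this
          exact (mul_nonpos_of_nonpos_of_nonneg c2' hκ0).trans
            (fw_nonneg hD B2 (dl_nonneg z') z)

end Par

end Pool.Agent.Stirring.QL
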